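import Pool.Agent.helper30.QP.SpecK
import Pool.Agent.helper99.IG.FR

/-!
# Row qs:FRA (MP_ebc808_nt): a frame with the full fixed field property
-/

set_option autoImplicit false

open Polynomial Pool.Agent.helper7.IG
open scoped IntermediateField.algebraAdjoinAdjoin

noncomputable section

namespace Pool.Agent.QP

/-- Elements fixed by all automorphisms over a subfield, in characteristic two. -/
theorem FRA_fix {k M A : Type} [Field k] [Field M] [Algebra k M] [Field A] [Algebra M A]
    [IsAlgClosure M A] [Algebra k A] [IsScalarTower k M A] [CharP M 2] (K : IntermediateField k M)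
    (hK : Algebra.IsAlgebraic K M) (Y : A)
    (h : ∀ g : A ≃ₐ[k] A, (∀ x ∈ K, g (algebraMap M A x) = algebraMap M A x) →
      g Y = Y) : ∃ (s : ℕ) (c : M), c ∈ K ∧ Y ^ (2 ^ s) = algebraMap M A c := by
  classical
  have : Algebra.IsAlgebraic M A := IsAlgClosure.isAlgebraic
  have : Algebra.IsAlgebraic K A := Algebra.IsAlgebraic.trans K M A
  have : IsAlgClosed A := IsAlgClosure.isAlgClosed M
  have : IsAlgClosure K A := ⟨inferInstance, inferInstance⟩
  have : Normal K A := IsAlgClosure.normal K A
  have : CharP K 2 := (algebraMap K M).charP (algebraMap K M).injective 2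
  have : Fact (Nat.Prime 2) := ⟨Nat.prime_two⟩
  have : ExpChar K 2 := ExpChar.prime Nat.prime_two
  have hfix : ∀ g : A ≃ₐ[K] A, g Y = Y := by
    intro g
    refine h (g.restrictScalars k) ?_
    intro x hx
    exact g.commutes ⟨x, hx⟩
  have hroots : (minpoly K Y).natSepDegree = 1 := by
    rw [Polynomial.natSepDegree_eq_of_isAlgClosed A]
    have h2 : ((minpoly K Y).aroots A).toFinset = {Y} := by
      ext z
      rw [Multiset.mem_toFinset, Finset.mem_singleton,
        ← isConjRoot_iff_mem_minpoly_aroots (Algebra.IsIntegral.isIntegral Y),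
        isConjRoot_iff_exists_algEquiv]
      constructor
      · rintro ⟨σ, hσ⟩
        apply σ.injective
        rw [hfix σ]
        exact hσ
      · rintro rfl
        exact ⟨AlgEquiv.refl, rfl⟩
    rw [h2, Finset.card_singleton]
  obtain ⟨s, c, hc⟩ := (minpoly.natSepDegree_eq_one_iff_pow_mem 2).mp hroots
  exact ⟨s, (c : M), c.2, hc.symm⟩

open Classical in
/-- the embedding -/
def FRA_cl (F : LL) : AlgebraicClosure MM :=
  if h : F ∈ MM then algebraMap MM (AlgebraicClosure MM) ⟨F, h⟩ else 0

theorem FRA_cl_of {F : LL} (h : F ∈ MM) : FRA_cl F = algebraMap MM (AlgebraicClosure MM) ⟨F, h⟩ := by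
  unfold FRA_cl
  rw [dif_pos h]

theorem FRA_K (hME : ME_stmt) (N : ℕ) (hN : Odd N) (hd : sig N 1 DDk ∈ MM) (a : AlgebraicClosure MM)
    (hfix : ∀ g : AlgebraicClosure MM ≃ₐ[kk] AlgebraicClosure MM,
      g (FRA_cl (sig N 1 DDk)) = FRA_cl (sig N 1 DDk) → g a = a) :
    ∃ (s : ℕ) (z : MM), (z : LL) ∈ IntermediateField.adjoin kk {sig N 1 DDk} ∧
      a ^ (2 ^ s) = algebraMap MM (AlgebraicClosure MM) z := by
  have : CharP MM 2 := charP_of_injective_algebraMap (algebraMap kk MM).injective 2
  have hN0 : N ≠ 0 := by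
    rintro rfl
    exact absurd hN (by decide)
  set d : MM := ⟨sig N 1 DDk, hd⟩ with hddef
  have hdK : d ∈ IntermediateField.adjoin kk {d} := IntermediateField.mem_adjoin_simple_self _ _
  have hK : Algebra.IsAlgebraic (IntermediateField.adjoin kk {d}) MM :=
    FR_alg (x := d) (FR_transc_sig hN0 1) _ hdK
  obtain ⟨s, c, hcK, hc⟩ := FRA_fix (A := AlgebraicClosure MM) (IntermediateField.adjoin kk {d}) hK a
    (by
      intro g hg
      refine hfix g ?_
      rw [FRA_cl_of hd]
      exact hg d hdK)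
  refine ⟨s, c, ?_, hc⟩
  have h2 : MM.val c ∈ (IntermediateField.adjoin kk {d}).map MM.val := ⟨_, hcK, rfl⟩
  rw [FR_map_adjoin] at h2
  exact h2

theorem FRA (hME : ME_stmt) : FRA_stmt := by
  have : CharP MM 2 := charP_of_injective_algebraMap (algebraMap kk MM).injective 2
  refine ⟨
    { A := AlgebraicClosure MM
      cl := FRA_cl
      cl_add := ?_
      cl_mul := ?_
      cl_alg := ?_
      cl_inj := ?_
      ext_sig := ?_
      conj := ?_ }, ?_⟩
  · intro F hF G hG
    rw [FRA_cl_of hF, FRA_cl_of hG, FRA_cl_of (add_mem hF hG), ← map_add]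
    rfl
  · intro F hF G hG
    rw [FRA_cl_of hF, FRA_cl_of hG, FRA_cl_of (mul_mem hF hG), ← map_mul]
    rfl
  · intro c
    rw [FRA_cl_of (C_mem c), IsScalarTower.algebraMap_apply kk MM (AlgebraicClosure MM)]
    rfl
  · intro F hF h
    rw [FRA_cl_of hF, map_eq_zero_iff _ (algebraMap MM (AlgebraicClosure MM)).injective] at h
    exact congrArg Subtype.val h
  · intro e ζ he
    have he0 : e ≠ 0 := by
      rintro rfl
      exact absurd he (by decide)
    let σ : MM →ₐ[kk] MM :=
      { toFun := fun x => ⟨sig e ζ x, hME e ζ x he x.2⟩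
        map_one' := by ext1; simp
        map_mul' := fun x y => by ext1; simp
        map_zero' := by ext1; simp
        map_add' := fun x y => by ext1; simp
        commutes' := fun c => by
          apply Subtype.ext
          exact (sig e ζ).commutes c }
    have hσ : Algebra.IsAlgebraic σ.fieldRange MM := by
      refine FR_alg (x := σ FR_D) ?_ _ ⟨FR_D, rfl⟩
      exact FR_transc_sig he0 ζ
    obtain ⟨τ, hτ⟩ := FR_lift (A := AlgebraicClosure MM) σ hσ
    refine ⟨τ, ?_⟩
    intro F hF
    rw [FRA_cl_of hF, FRA_cl_of (hME e ζ F he hF), hτ]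
    rfl
  · intro N y hN hy hfix
    have hd : sig N 1 DDk ∈ MM := hME N 1 DDk hN DDk_mem
    obtain ⟨s, z, hz, hs⟩ := FRA_K hME N hN hd (FRA_cl y) hfix
    refine ⟨s, ?_⟩
    rw [FRA_cl_of hy, ← map_pow] at hs
    have h1 := (algebraMap MM (AlgebraicClosure MM)).injective hs
    have h2 : y ^ 2 ^ s = (z : LL) := congrArg Subtype.val h1
    rw [h2]
    exact hz
  · intro N a hN hfix
    have hd : sig N 1 DDk ∈ MM := hME N 1 DDk hN DDk_mem
    obtain ⟨s, z, hz, hs⟩ := FRA_K hME N hN hd a hfix
    refine ⟨s, (z : LL), hz, ?_⟩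
    refine hs.trans ?_
    exact (FRA_cl_of z.2).symm

end Pool.Agent.QP
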