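import Pool.Agent.helper30.QP.SpecK

/-!
# Row qs:CHB (MP_ebc808_nt): multiples of primes and the bound of Chebyshev
-/

set_option autoImplicit false

open Polynomial Pool.Agent.helper7.IG

noncomputable section

namespace Pool.Agent.QP

theorem CHB_pi (K : ℕ) : ∃ Y0 : ℕ, 2 ≤ Y0 ∧ ∀ n : ℕ, Y0 ≤ n →
    (n : ℝ) / (4 * Real.log n) + √(n : ℝ) + K ≤ (Nat.primeCounting n : ℝ) := by
  refine ⟨max 160000 ((K + 2) ^ 2), le_trans (by norm_num) (le_max_left _ _), fun n hn => ?_⟩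
  have hn1 : 160000 ≤ n := (le_max_left _ _).trans hn
  have hn2 : (K + 2) ^ 2 ≤ n := (le_max_right _ _).trans hn
  have hn1' : (160000 : ℝ) ≤ n := by exact_mod_cast hn1
  have hn2' : ((K : ℝ) + 2) ^ 2 ≤ n := by exact_mod_cast hn2
  have hn0 : (0 : ℝ) ≤ n := Nat.cast_nonneg n
  set r : ℝ := √(n : ℝ) with hr
  set s : ℝ := √r with hs
  have hr2 : r ^ 2 = n := Real.sq_sqrt hn0
  have hr0 : 0 ≤ r := Real.sqrt_nonneg _
  have hs2 : s ^ 2 = r := Real.sq_sqrt hr0
  have hs0 : 0 ≤ s := Real.sqrt_nonneg _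
  have hr400 : 400 ≤ r := by
    rw [hr]
    refine Real.le_sqrt_of_sq_le ?_
    have h1 : (400 : ℝ) ^ 2 = 160000 := by norm_num
    rw [h1]
    exact hn1'
  have hs20 : 20 ≤ s := by
    rw [hs]
    refine Real.le_sqrt_of_sq_le ?_
    have h1 : (20 : ℝ) ^ 2 = 400 := by norm_num
    rw [h1]
    exact hr400
  have hKr : (K : ℝ) + 2 ≤ r := by
    rw [hr]
    exact Real.le_sqrt_of_sq_le hn2'
  have hlog : Real.log n = 4 * Real.log s := by
    have h1 : (n : ℝ) = s ^ 4 := by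
      rw [← hr2, ← hs2]
      ring
    rw [h1, Real.log_pow]
    norm_num
  have hspos : 0 < s := by linarith
  have hls : Real.log s ≤ s := by
    have := Real.log_le_sub_one_of_pos hspos
    linarith
  have hlspos : 0 < Real.log s := Real.log_pos (by linarith)
  have hlpos : 0 < Real.log n := by
    rw [hlog]
    linarith
  have h2 : Real.log ((n : ℝ) + 1) ≤ 2 * Real.log n := by
    have h3 : Real.log ((n : ℝ) ^ 2) = 2 * Real.log n := by
      rw [Real.log_pow]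
      norm_num
    rw [← h3]
    refine Real.log_le_log (by linarith) ?_
    nlinarith
  have h3 := Chebyshev.pi_ge n
  refine le_trans ?_ h3
  rw [le_div_iff₀ hlpos]
  have h4 : ((n : ℝ) / (4 * Real.log n) + r + K) * Real.log n = n / 4 + (r + K) * Real.log n := by
    field_simp
    ring
  rw [h4]
  have h5 : (r + K) * Real.log n + Real.log ((n : ℝ) + 1) ≤ (r + (K + 2)) * Real.log n := by
    linarith
  have h6 : (r + (K + 2)) * Real.log n ≤ (2 * r) * (4 * s) := by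
    rw [hlog]
    have h7 : r + ((K : ℝ) + 2) ≤ 2 * r := by linarith
    have h8 : 4 * Real.log s ≤ 4 * s := by linarith
    have h9 : 0 ≤ 4 * Real.log s := by linarith
    exact mul_le_mul h7 h8 h9 (by linarith)
  have h7 : (2 * r) * (4 * s) ≤ (2 / 5) * n := by
    rw [← hr2, ← hs2]
    have h8 : (2 / 5) * (s ^ 2) ^ 2 - 2 * s ^ 2 * (4 * s) = (2 / 5) * s ^ 3 * (s - 20) := by ring
    have h9 : 0 ≤ (2 / 5) * s ^ 3 * (s - 20) := by
      have : 0 ≤ s - 20 := by linarith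
      positivity
    linarith
  have h8 : (0.69 : ℝ) < Real.log 2 := by
    have := Real.log_two_gt_d9
    norm_num at this ⊢
    linarith
  have h9 : (n : ℝ) * 0.69 ≤ n * Real.log 2 := mul_le_mul_of_nonneg_left h8.le hn0
  linarith

theorem CHB_card (y l0 : ℕ) : (Nat.primeCounting y : ℝ) ≤
    (((Finset.range (y + 1)).filter fun l => l.Prime ∧ l0 ≤ l ∧ y < l ^ 2).card : ℝ) +
      √(y : ℝ) + (l0 + 1 : ℕ) := by
  classical
  have h1 : Nat.primeCounting y = ((Finset.range (y + 1)).filter fun l => l.Prime).card := by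
    unfold Nat.primeCounting Nat.primeCounting'
    rw [Nat.count_eq_card_filter_range]
  have h2 : ((Finset.range (y + 1)).filter fun l => l.Prime) ⊆
      ((Finset.range (y + 1)).filter fun l => l.Prime ∧ l0 ≤ l ∧ y < l ^ 2) ∪
        (Finset.range (Nat.sqrt y + 1) ∪ Finset.range l0) := by
    intro l hl
    rw [Finset.mem_filter] at hl
    rw [Finset.mem_union, Finset.mem_union, Finset.mem_filter]
    by_cases h3 : l < Nat.sqrt y + 1
    · exact Or.inr (Or.inl (Finset.mem_range.2 h3))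
    · by_cases h4 : l < l0
      · exact Or.inr (Or.inr (Finset.mem_range.2 h4))
      · refine Or.inl ⟨hl.1, hl.2, by omega, ?_⟩
        have h5 : Nat.sqrt y < l := by omega
        rwa [Nat.sqrt_lt'] at h5
  have h3 := (Finset.card_le_card h2).trans ((Finset.card_union_le _ _).trans
    (Nat.add_le_add_left (Finset.card_union_le _ _) _))
  rw [Finset.card_range, Finset.card_range, ← h1] at h3
  have h4 : ((Nat.sqrt y : ℕ) : ℝ) ≤ √(y : ℝ) := Real.nat_sqrt_le_real_sqrt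
  have h5 : (Nat.primeCounting y : ℝ) ≤
    (((Finset.range (y + 1)).filter fun l => l.Prime ∧ l0 ≤ l ∧ y < l ^ 2).card : ℝ) +
      (((Nat.sqrt y : ℕ) : ℝ) + 1 + (l0 : ℝ)) := by exact_mod_cast h3
  push_cast
  linarith

/-- few primes divide a number -/
theorem CHB_fib (C y m : ℕ) (hC : C ^ 2 ≤ y) (hm : 0 < m) (hmy : m ≤ C * y ^ 3) (T : Finset ℕ)
    (hT : ∀ l ∈ T, l.Prime ∧ y < l ^ 2 ∧ l ∣ m) : T.card ≤ 6 := by
  classical
  by_contra hcon
  push Not at hcon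
  obtain ⟨T', hT', hc⟩ := Finset.exists_subset_card_eq (n := 7) hcon
  have h1 : (∏ l ∈ T', l) ∣ m :=
    Finset.prod_primes_dvd m (fun l hl => (hT l (hT' hl)).1.prime) fun l hl => (hT l (hT' hl)).2.2
  have h2 : (∏ l ∈ T', l) ≤ m := Nat.le_of_dvd hm h1
  have hy : 0 < y := by
    rcases Nat.eq_zero_or_pos y with h | h
    · subst h
      simp at hmy
      omega
    · exact h
  have h3 : y ^ 7 < (∏ l ∈ T', l) ^ 2 := by
    rw [← Finset.prod_pow, ← hc, ← Finset.prod_const]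
    refine Finset.prod_lt_prod_of_nonempty (fun _ _ => hy) (fun l hl => (hT l (hT' hl)).2.1) ?_
    rw [← Finset.card_pos, hc]
    norm_num
  have h4 : (∏ l ∈ T', l) ^ 2 ≤ (C * y ^ 3) ^ 2 := Nat.pow_le_pow_left (h2.trans hmy) 2
  have h5 : (C * y ^ 3) ^ 2 ≤ y ^ 7 := by
    calc (C * y ^ 3) ^ 2 = C ^ 2 * y ^ 6 := by ring
      _ ≤ y * y ^ 6 := Nat.mul_le_mul_right _ hC
      _ = y ^ 7 := by ring
  omega

theorem CHB : CHB_stmt := by
  intro A C l0 hA
  classical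
  obtain ⟨Y0, hY2, hY0⟩ := CHB_pi (l0 + 1)
  set C1 : ℕ := C + 1 with hC1
  have hC1pos : (0 : ℝ) < C1 := by
    rw [hC1]
    positivity
  set Z : ℝ := ((Y0 + C1 ^ 2 + 2 : ℕ) : ℝ) with hZ
  refine ⟨1 / 48 * (1 / (C1 : ℝ)) ^ (1 / 3 : ℝ), by positivity, ?_⟩
  refine Filter.eventually_atTop.2 ⟨C1 * (Y0 + C1 ^ 2 + 2) ^ 3, fun x hx => ?_⟩
  have hZ2 : 2 ≤ Z := by
    rw [hZ]
    push_cast
    have : (0 : ℝ) ≤ Y0 := Nat.cast_nonneg _
    have : (0 : ℝ) ≤ (C1 : ℝ) ^ 2 := by positivity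
    linarith
  set t : ℝ := ((x : ℝ) / C1) ^ (1 / 3 : ℝ) with ht
  have hxC : 0 ≤ (x : ℝ) / C1 := by positivity
  have ht0 : 0 ≤ t := Real.rpow_nonneg hxC _
  have ht3 : t ^ 3 = (x : ℝ) / C1 := by
    rw [ht, ← Real.rpow_natCast, ← Real.rpow_mul hxC]
    norm_num
  have htZ : Z ≤ t := by
    have h1 : Z ^ 3 ≤ t ^ 3 := by
      rw [ht3, le_div_iff₀ hC1pos, hZ]
      have : (C1 * (Y0 + C1 ^ 2 + 2) ^ 3 : ℕ) ≤ x := hx
      have h2 : ((C1 * (Y0 + C1 ^ 2 + 2) ^ 3 : ℕ) : ℝ) ≤ x := by exact_mod_cast this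
      push_cast at h2 ⊢
      linarith
    exact le_of_pow_le_pow_left₀ (by norm_num) ht0 h1
  set y : ℕ := ⌊t⌋₊ with hy
  have hyt : (y : ℝ) ≤ t := Nat.floor_le ht0
  have hyt1 : t < y + 1 := Nat.lt_floor_add_one t
  have hyY : Y0 + C1 ^ 2 + 2 ≤ y := Nat.le_floor htZ
  have hyx : C1 * y ^ 3 ≤ x := by
    have h1 : (y : ℝ) ^ 3 ≤ (x : ℝ) / C1 := by
      rw [← ht3]
      exact pow_le_pow_left₀ (Nat.cast_nonneg _) hyt 3
    rw [le_div_iff₀ hC1pos] at h1
    have h2 : ((C1 * y ^ 3 : ℕ) : ℝ) ≤ x := by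
      push_cast
      linarith
    exact_mod_cast h2
  set P : Finset ℕ := (Finset.range (y + 1)).filter fun l => l.Prime ∧ l0 ≤ l ∧ y < l ^ 2 with hP
  have hch : ∀ l : ℕ, ∃ m : ℕ, l ∈ P → m ∈ A ∧ 0 < m ∧ l ∣ m ∧ m ≤ C * l ^ 3 := by
    intro l
    by_cases hl : l ∈ P
    · have hl' := hl
      rw [hP, Finset.mem_filter] at hl'
      obtain ⟨m, h1, h2⟩ := hA l hl'.2.1 hl'.2.2.1
      exact ⟨m, fun _ => ⟨h1, h2⟩⟩
    · exact ⟨0, fun h => absurd h hl⟩
  choose f hf using hch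
  have hly : ∀ l ∈ P, l ≤ y := by
    intro l hl
    rw [hP, Finset.mem_filter, Finset.mem_range] at hl
    omega
  have hfy : ∀ l ∈ P, f l ≤ C1 * y ^ 3 := by
    intro l hl
    refine (hf l hl).2.2.2.trans ?_
    exact Nat.mul_le_mul (Nat.le_succ C) (Nat.pow_le_pow_left (hly l hl) 3)
  have hfin : {m : ℕ | m ∈ A ∧ m ≤ x}.Finite := (Set.finite_Iic x).subset fun m hm => hm.2
  have hcard : P.card ≤ 6 * (P.image f).card := by
    refine Finset.card_le_mul_card_image P 6 fun m hm => ?_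
    obtain ⟨l1, hl1, rfl⟩ := Finset.mem_image.1 hm
    refine CHB_fib C1 y (f l1) (by omega) (hf l1 hl1).2.1 (hfy l1 hl1) _ fun l hl => ?_
    rw [Finset.mem_filter] at hl
    have h1 := hf l hl.1
    have h2 := hl.1
    rw [hP, Finset.mem_filter] at h2
    exact ⟨h2.2.1, h2.2.2.2, hl.2 ▸ h1.2.2.1⟩
  have himg : (P.image f).card ≤ {m : ℕ | m ∈ A ∧ m ≤ x}.ncard := by
    rw [← Set.ncard_coe_finset]
    refine Set.ncard_le_ncard ?_ hfin
    intro m hm
    rw [Finset.mem_coe] at hm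
    obtain ⟨l, hl, rfl⟩ := Finset.mem_image.1 hm
    exact ⟨(hf l hl).1, (hfy l hl).trans hyx⟩
  have hπ := hY0 y (by omega)
  have hπ2 := CHB_card y l0
  rw [← hP] at hπ2
  have h1 : (y : ℝ) / (4 * Real.log y) ≤ P.card := by linarith
  have h2 : (P.card : ℝ) ≤ 6 * ({m : ℕ | m ∈ A ∧ m ≤ x}.ncard : ℝ) := by
    exact_mod_cast hcard.trans (Nat.mul_le_mul_left 6 himg)
  have hy2 : (2 : ℝ) ≤ y := by
    have : 2 ≤ y := by omega
    exact_mod_cast this
  have hlogy : 0 < Real.log y := Real.log_pos (by linarith)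
  have hyx' : (y : ℝ) ≤ x := by
    have h3 : y ≤ x := by
      refine le_trans ?_ hyx
      have h4 : y ≤ y ^ 3 := Nat.le_self_pow (by norm_num) y
      refine h4.trans (Nat.le_mul_of_pos_left _ (Nat.succ_pos C))
    exact_mod_cast h3
  have hlogxy : Real.log y ≤ Real.log x := Real.log_le_log (by linarith) hyx'
  have hlogx : 0 < Real.log x := by linarith
  have hct : 1 / 48 * (1 / (C1 : ℝ)) ^ (1 / 3 : ℝ) * (x : ℝ) ^ (1 / 3 : ℝ) = 1 / 48 * t := by
    rw [ht, mul_assoc, ← Real.mul_rpow (by positivity) (Nat.cast_nonneg x)]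
    congr 2
    ring
  rw [hct]
  have h3 : t / 2 ≤ y := by linarith
  have h4 : 1 / 48 * t / Real.log x ≤ 1 / 6 * ((y : ℝ) / (4 * Real.log y)) := by
    have h5 : 1 / 6 * ((y : ℝ) / (4 * Real.log y)) = (y : ℝ) / 24 / Real.log y := by
      field_simp
      norm_num
    rw [h5]
    have h6 : 1 / 48 * t ≤ (y : ℝ) / 24 := by linarith
    exact div_le_div₀ (by positivity) h6 hlogy hlogxy
  linarith

end Pool.Agent.QP
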